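import Pool.Agent.H96.MC.Targets

/-!
# Module CHER: two-sided tail bound for a Poisson variable
-/

namespace Pool.Agent.H75.MC

open Pool.Agent.H96.MC MeasureTheory ProbabilityTheory

theorem hasSum_exp_poisson (r : NNReal) (θ : ℝ) :
    HasSum (fun n : ℕ => Real.exp (θ * n) * (Real.exp (-r) * (r : ℝ) ^ n / (n.factorial : ℝ)))
      (Real.exp ((r : ℝ) * (Real.exp θ - 1))) := by
  have h := (NormedSpace.expSeries_div_hasSum_exp ((r : ℝ) * Real.exp θ)).mul_left (Real.exp (-r))
  rw [← Real.exp_eq_exp_ℝ] at h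
  have h1 : Real.exp (-r) * Real.exp ((r : ℝ) * Real.exp θ) = Real.exp ((r : ℝ) * (Real.exp θ - 1)) := by
    rw [← Real.exp_add]
    congr 1
    ring
  rw [h1] at h
  refine h.congr_fun ?_
  intro n
  have h2 : Real.exp (θ * n) = Real.exp θ ^ n := by
    rw [mul_comm, Real.exp_nat_mul]
  rw [h2, mul_pow]
  ring

theorem cher : T_CHER := by
  intro t δ ht hδ hδ1
  set r : NNReal := t.toNNReal with hrd
  have hr : (r : ℝ) = t := Real.coe_toNNReal t ht
  set θ : ℝ := δ / 2 with hθ
  have hθ0 : 0 < θ := by positivity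
  have hθ1 : θ ≤ 1 := by linarith
  set S : Set ℕ := {n : ℕ | δ * t < |(n : ℝ) - t|} with hS
  set f : ℕ → ℝ := fun n => Real.exp (-(θ * t) - θ * δ * t) * Real.exp (θ * n) +
    Real.exp (θ * t - θ * δ * t) * Real.exp (-θ * n) with hf
  have hf0 : ∀ n, 0 ≤ f n := fun n => by positivity
  have hf1 : ∀ n ∈ S, 1 ≤ f n := by
    intro n hn
    have hn' : δ * t < |(n : ℝ) - t| := hn
    rcases lt_abs.1 hn' with h | h
    · have h1 : 1 ≤ Real.exp (-(θ * t) - θ * δ * t) * Real.exp (θ * n) := by
        rw [← Real.exp_add]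
        apply Real.one_le_exp
        have : -(θ * t) - θ * δ * t + θ * n = θ * ((n : ℝ) - t - δ * t) := by ring
        rw [this]
        exact mul_nonneg hθ0.le (by linarith)
      have h2 : 0 ≤ Real.exp (θ * t - θ * δ * t) * Real.exp (-θ * n) := by positivity
      simp only [hf]
      linarith
    · have h1 : 1 ≤ Real.exp (θ * t - θ * δ * t) * Real.exp (-θ * n) := by
        rw [← Real.exp_add]
        apply Real.one_le_exp
        have : θ * t - θ * δ * t + -θ * n = θ * (-((n : ℝ) - t) - δ * t) := by ring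
        rw [this]
        exact mul_nonneg hθ0.le (by linarith)
      have h2 : 0 ≤ Real.exp (-(θ * t) - θ * δ * t) * Real.exp (θ * n) := by positivity
      simp only [hf]
      linarith
  have hsum := ((hasSum_exp_poisson r θ).mul_left (Real.exp (-(θ * t) - θ * δ * t))).add
    ((hasSum_exp_poisson r (-θ)).mul_left (Real.exp (θ * t - θ * δ * t)))
  have hsum' : HasSum (fun n : ℕ => f n * (Real.exp (-r) * (r : ℝ) ^ n / (n.factorial : ℝ)))
      (Real.exp (-(θ * t) - θ * δ * t) * Real.exp ((r : ℝ) * (Real.exp θ - 1)) +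
        Real.exp (θ * t - θ * δ * t) * Real.exp ((r : ℝ) * (Real.exp (-θ) - 1))) := by
    refine hsum.congr_fun ?_
    intro n
    simp only [hf]
    ring
  have hb : Real.exp (-(θ * t) - θ * δ * t) * Real.exp ((r : ℝ) * (Real.exp θ - 1)) +
      Real.exp (θ * t - θ * δ * t) * Real.exp ((r : ℝ) * (Real.exp (-θ) - 1)) ≤
      2 * Real.exp (-(δ ^ 2 / 4) * t) := by
    rw [hr]
    have a1 := Real.abs_exp_sub_one_sub_id_le (x := θ) (by rw [abs_of_pos hθ0]; exact hθ1)
    have a2 := Real.abs_exp_sub_one_sub_id_le (x := -θ) (by rw [abs_neg, abs_of_pos hθ0]; exact hθ1)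
    have b1 := (abs_le.1 a1).2
    have b2 := (abs_le.1 a2).2
    have c1 : Real.exp (-(θ * t) - θ * δ * t) * Real.exp (t * (Real.exp θ - 1)) ≤
        Real.exp (-(δ ^ 2 / 4) * t) := by
      rw [← Real.exp_add]
      apply Real.exp_le_exp.2
      have e1 : t * (Real.exp θ - 1 - θ) ≤ t * θ ^ 2 := mul_le_mul_of_nonneg_left b1 ht
      have e2 : δ = 2 * θ := by rw [hθ]; ring
      rw [e2]
      nlinarith [e1]
    have c2 : Real.exp (θ * t - θ * δ * t) * Real.exp (t * (Real.exp (-θ) - 1)) ≤
        Real.exp (-(δ ^ 2 / 4) * t) := by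
      rw [← Real.exp_add]
      apply Real.exp_le_exp.2
      have e1 : t * (Real.exp (-θ) - 1 - -θ) ≤ t * (-θ) ^ 2 := mul_le_mul_of_nonneg_left b2 ht
      have e2 : δ = 2 * θ := by rw [hθ]; ring
      rw [e2]
      nlinarith [e1]
    linarith
  calc poissonMeasure r S = ∫⁻ n, S.indicator 1 n ∂(poissonMeasure r) :=
        (lintegral_indicator_one (MeasurableSet.of_discrete)).symm
    _ ≤ ∫⁻ n, ENNReal.ofReal (f n) ∂(poissonMeasure r) := by
        apply lintegral_mono
        intro n
        by_cases hn : n ∈ S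
        · rw [Set.indicator_of_mem hn]
          simp only [Pi.one_apply]
          rw [← ENNReal.ofReal_one]
          exact ENNReal.ofReal_le_ofReal (hf1 n hn)
        · rw [Set.indicator_of_notMem hn]
          exact bot_le
    _ = ∑' n, ENNReal.ofReal (f n) * poissonMeasure r {n} := lintegral_countable' _
    _ = ∑' n, ENNReal.ofReal (f n * (Real.exp (-r) * (r : ℝ) ^ n / (n.factorial : ℝ))) := by
        congr 1
        funext n
        rw [poissonMeasure_singleton, ← ENNReal.ofReal_mul (hf0 n)]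
    _ = ENNReal.ofReal (∑' n, f n * (Real.exp (-r) * (r : ℝ) ^ n / (n.factorial : ℝ))) := by
        rw [ENNReal.ofReal_tsum_of_nonneg (fun n => mul_nonneg (hf0 n) (by positivity)) hsum'.summable]
    _ ≤ ENNReal.ofReal (2 * Real.exp (-(δ ^ 2 / 4) * t)) := by
        rw [hsum'.tsum_eq]
        exact ENNReal.ofReal_le_ofReal hb

end Pool.Agent.H75.MC
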