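import Pool.Agent.H89.MC.Targets

/-!
MP_5da387_pr, module DSC: from finite windows to the discrete form (assembly).
-/

namespace Pool.Agent.H75.MC.DSC

open Classical MeasureTheory ProbabilityTheory Pool.Agent.H96.MC

theorem dsc (hA : T_AVP) (hT : T_TIG) (hC : T_CPT) (hL : T_LIN) (hP : T_LPF) (hM : T_TLM) :
    T_DSC := by
  intro hF d q D hd
  obtain ⟨M, τ, Φ, hM0, hΦ, hmat, hmiss, hfar, hτ, hrate⟩ := hF d q D hd
  obtain ⟨μ, hprob, hfst, hmat', hmiss', hfar', hinv⟩ := hA d q D M τ Φ hM0 hΦ hmat hmiss hfar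
  obtain ⟨t1, t2⟩ := hT d q D μ τ hprob hfst hmat' hτ hfar'
  obtain ⟨U, ν, hU, hν, hlim⟩ := hC d q μ hprob t1 t2
  have hLim : LimOn U μ ν := ⟨hU, hprob, hν, hlim⟩
  obtain ⟨l1, l2⟩ := hL d q D U μ ν hLim hfst hinv
  refine ⟨ν, hν, l1, l2, hP d q D.V U μ ν hLim hmat' hmiss', ?_⟩
  intro ε hε
  filter_upwards [hrate ε hε] with r hr
  exact (hM d q U μ ν r (τ r) hLim (hfar' 0 r)).trans hr

end Pool.Agent.H75.MC.DSC
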