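import Pool.Agent.H89.MC.Targets
import Pool.Agent.H96.MC.Targets4

/-!
MP_5da387_pr, module FTL: the tail of the typical diameter does not depend on the set.
-/

namespace Pool.Agent.H75.MC.FTL

open Classical MeasureTheory ProbabilityTheory Pool.Agent.H96.MC

theorem encard_union_fin {α ι : Type} (s : Finset ι) (A : ι → Set α)
    (h : ∀ i j, i ≠ j → Disjoint (A i) (A j)) :
    (⋃ i ∈ s, A i).encard = ∑ i ∈ s, (A i).encard := by
  induction s using Finset.induction_on with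
  | empty => simp
  | insert a s ha ih =>
    rw [Finset.sum_insert ha, ← ih, Finset.set_biUnion_insert, Set.encard_union_eq]
    rw [Set.disjoint_iUnion₂_right]
    intro i hi
    exact h a i (fun e => ha (e ▸ hi))

theorem ftl (h1 : T_NU) (h2 : T_DIST) (h3 : T_EPC) : T_FTL := by
  intro d q D S B r hd hB hpos hfin
  have hLam : 0 < ∑ i, D.lam i := by
    obtain ⟨i, -⟩ := D.unit
    exact lt_of_lt_of_le (D.pos i)
      (Finset.single_le_sum (fun j _ => (D.pos j).le) (Finset.mem_univ i))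
  have hE := h3 d q D S hd
  obtain ⟨-, m1, -⟩ := h1 d q D S (-1) B hd hB
  obtain ⟨meas, mr, tle⟩ := h1 d q D S r B hd hB
  rw [hE] at m1
  -- the far points of level -1 are all points
  have hall : ∀ᵐ ω ∂S.P, S.far (-1) B ω = {x | x ∈ B ∧ ∃ i, x ∈ S.Pi i ω} := by
    filter_upwards [S.part] with ω hω
    ext x
    constructor
    · rintro ⟨hx, hi, -⟩
      exact ⟨hx, hi⟩
    · rintro ⟨hx, i, hi⟩
      obtain ⟨G, ⟨hG, hxG⟩, -⟩ := hω i x hi
      refine ⟨hx, ⟨i, hi⟩, G, hG, hxG, ?_⟩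
      have : 0 ≤ fdiam G := Metric.diam_nonneg
      linarith
  have hsum : ∀ᵐ ω ∂S.P, ((∑ i, (S.Pi i ω ∩ B).encard : ℕ∞) : ENNReal) =
      ((S.far (-1) B ω).encard : ENNReal) := by
    filter_upwards [hall, h2 d q D S hd] with ω hω hdis
    rw [hω]
    have e : {x | x ∈ B ∧ ∃ i, x ∈ S.Pi i ω} = ⋃ i ∈ (Finset.univ : Finset (Fin q)),
        (S.Pi i ω ∩ B) := by
      ext x
      simp only [Finset.mem_univ, Set.iUnion_true, Set.mem_iUnion, Set.mem_inter_iff]
      constructor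
      · rintro ⟨hx, i, hi⟩
        exact ⟨i, hi, hx⟩
      · rintro ⟨i, hi, hx⟩
        exact ⟨hx, i, hi⟩
    rw [e, encard_union_fin]
    intro i j hij
    exact (hdis i j hij).mono Set.inter_subset_left Set.inter_subset_left
  have hEPsi : S.EPsi B = (volume B).toReal * ∑ i, D.lam i := by
    unfold Scheme.EPsi
    rw [lintegral_congr_ae hsum, m1, ENNReal.toReal_mul, ENNReal.toReal_ofReal hLam.le]
  -- splitting
  have hsplit : ∀ᵐ ω ∂S.P, ((S.far (-1) B ω).encard : ENNReal) =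
      (({x : Sp d | x ∈ B ∧ (∃ i, x ∈ S.Pi i ω) ∧ ∃ G ∈ S.M ω, x ∈ G ∧ fdiam G ≤ r}.encard :
        ℕ∞) : ENNReal) + ((S.far r B ω).encard : ENNReal) := by
    filter_upwards [hall, S.part] with ω hω hpart
    have hdisj : Disjoint {x : Sp d | x ∈ B ∧ (∃ i, x ∈ S.Pi i ω) ∧ ∃ G ∈ S.M ω, x ∈ G ∧
        fdiam G ≤ r} (S.far r B ω) := by
      rw [Set.disjoint_left]
      rintro x ⟨-, ⟨i, hi⟩, G, hG, hxG, hGr⟩ ⟨-, -, G', hG', hxG', hGr'⟩
      obtain ⟨G0, -, hu⟩ := hpart i x hi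
      have e1 := hu G ⟨hG, hxG⟩
      have e2 := hu G' ⟨hG', hxG'⟩
      subst e1
      subst e2
      linarith
    have hun : S.far (-1) B ω = {x : Sp d | x ∈ B ∧ (∃ i, x ∈ S.Pi i ω) ∧ ∃ G ∈ S.M ω, x ∈ G ∧
        fdiam G ≤ r} ∪ S.far r B ω := by
      rw [hω]
      ext x
      constructor
      · rintro ⟨hx, i, hi⟩
        obtain ⟨G, ⟨hG, hxG⟩, -⟩ := hpart i x hi
        rcases le_or_gt (fdiam G) r with h | h
        · exact Or.inl ⟨hx, ⟨i, hi⟩, G, hG, hxG, h⟩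
        · exact Or.inr ⟨hx, ⟨i, hi⟩, G, hG, hxG, h⟩
      · rintro (⟨hx, hi, -⟩ | ⟨hx, hi, -⟩)
        · exact ⟨hx, hi⟩
        · exact ⟨hx, hi⟩
    rw [hun, Set.encard_union_eq hdisj]
    push_cast
    rfl
  have hadd := lintegral_congr_ae hsplit
  rw [lintegral_add_right' _ meas, m1, mr] at hadd
  set num : ENNReal := ∫⁻ ω, (({x : Sp d | x ∈ B ∧ (∃ i, x ∈ S.Pi i ω) ∧ ∃ G ∈ S.M ω, x ∈ G ∧
    fdiam G ≤ r}.encard : ℕ∞) : ENNReal) ∂S.P with hnum
  have htot : volume B * ENNReal.ofReal (∑ i, D.lam i) ≠ ⊤ :=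
    ENNReal.mul_ne_top hfin.ne ENNReal.ofReal_ne_top
  have hn1 : num ≠ ⊤ := by
    intro h
    rw [h, top_add] at hadd
    exact htot hadd
  have hn2 : volume B * S.tl r ≠ ⊤ := by
    intro h
    rw [h, add_top] at hadd
    exact htot hadd
  have hreal := congrArg ENNReal.toReal hadd
  rw [ENNReal.toReal_add hn1 hn2, ENNReal.toReal_mul, ENNReal.toReal_mul,
    ENNReal.toReal_ofReal hLam.le] at hreal
  have hv : 0 < (volume B).toReal := ENNReal.toReal_pos hpos.ne' hfin.ne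
  have hF : S.F B r = num.toReal / ((volume B).toReal * ∑ i, D.lam i) := by
    unfold Scheme.F
    rw [hEPsi]
  rw [hF, eq_div_iff hLam.ne', sub_mul, one_mul, div_mul_eq_mul_div]
  rw [sub_eq_iff_eq_add, eq_comm]
  field_simp
  nlinarith [hreal]

end Pool.Agent.H75.MC.FTL
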