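import Pool.Agent.H89.MC.Targets

/-!
MP_5da387_pr, module GOO: the good event is measurable and almost sure.
-/

namespace Pool.Agent.H75.MC.GOO

open Classical MeasureTheory ProbabilityTheory Pool.Agent.H96.MC

variable {d q : ℕ}

theorem meas (V : Finset (Fin q → ℕ)) (hperf : MeasurableSet {ω : XX d q | IsPerf V ω}) :
    MeasurableSet {ω : Big d q | GoodB V ω} := by
  have e : {ω : Big d q | GoodB V ω} =
      (⋂ x : Pt d q, ⋂ y : Pt d q, {ω : Big d q | ω.2.1 x = ω.2.1 y → x = y}) ∩
      ((⋂ x : Pt d q, ⋂ l : Fin d, {ω : Big d q | 0 ≤ ω.2.1 x l ∧ ω.2.1 x l < 1}) ∩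
      ((⋂ l : Fin d, {ω : Big d q | 0 ≤ ω.2.2 l ∧ ω.2.2 l < 1}) ∩
        (Prod.fst ⁻¹' {ω : XX d q | IsPerf V ω}))) := by
    ext ω
    simp only [GoodB, Set.mem_inter_iff, Set.mem_iInter, Set.mem_ofPred_eq, Set.mem_preimage]
  rw [e]
  refine MeasurableSet.inter ?_ (MeasurableSet.inter ?_ (MeasurableSet.inter ?_ ?_))
  · refine MeasurableSet.iInter fun x => MeasurableSet.iInter fun y => ?_
    by_cases h : x = y
    · subst h
      simp
    · have : {ω : Big d q | ω.2.1 x = ω.2.1 y → x = y} =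
          {ω : Big d q | ω.2.1 x = ω.2.1 y}ᶜ := by
        ext ω
        simp [h]
      rw [this]
      refine (measurableSet_eq_fun ?_ ?_).compl
      · exact (measurable_pi_apply x).comp (measurable_fst.comp measurable_snd)
      · exact (measurable_pi_apply y).comp (measurable_fst.comp measurable_snd)
  · refine MeasurableSet.iInter fun x => MeasurableSet.iInter fun l => ?_
    have hm : Measurable fun ω : Big d q => ω.2.1 x l :=
      (measurable_pi_apply l).comp
        ((measurable_pi_apply x).comp (measurable_fst.comp measurable_snd))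
    exact (measurableSet_le measurable_const hm).inter (measurableSet_lt hm measurable_const)
  · refine MeasurableSet.iInter fun l => ?_
    have hm : Measurable fun ω : Big d q => ω.2.2 l :=
      (measurable_pi_apply l).comp (measurable_snd.comp measurable_snd)
    exact (measurableSet_le measurable_const hm).inter (measurableSet_lt hm measurable_const)
  · exact measurable_fst hperf

theorem unif_cube [IsProbabilityMeasure (unif d)] :
    ∀ᵐ u ∂(unif d), ∀ l, 0 ≤ u l ∧ u l < 1 := by
  have h : ∀ᵐ u ∂(unif d), u ∈ Set.pi Set.univ fun _ : Fin d => Set.Ico (0 : ℝ) 1 := by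
    unfold unif
    exact ae_restrict_mem (MeasurableSet.univ_pi fun _ => measurableSet_Ico)
  filter_upwards [h] with u hu l
  exact hu l (Set.mem_univ l)

theorem pair [IsProbabilityMeasure (unif d)] (hpt : ∀ u, unif d {u} = 0) (x y : Pt d q)
    (hxy : x ≠ y) :
    ∀ᵐ U ∂(Measure.infinitePi fun _ : Pt d q => unif d), U x ≠ U y := by
  have h1 : (Measure.infinitePi fun _ : Pt d q => unif d).map (fun U => (U x, U y)) =
      (unif d).prod (unif d) := Measure.infinitePi_map_eval_prod hxy
  have hdm : MeasurableSet {p : (Fin d → ℝ) × (Fin d → ℝ) | p.1 = p.2} :=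
    measurableSet_eq_fun measurable_fst measurable_snd
  have h2 : (unif d).prod (unif d) {p : (Fin d → ℝ) × (Fin d → ℝ) | p.1 = p.2} = 0 := by
    rw [Measure.measure_prod_null hdm]
    refine Filter.Eventually.of_forall fun u => ?_
    have : Prod.mk u ⁻¹' {p : (Fin d → ℝ) × (Fin d → ℝ) | p.1 = p.2} = {u} := by
      ext v
      simp only [Set.mem_preimage, Set.mem_ofPred_eq, Set.mem_singleton_iff]
      exact eq_comm
    change (unif d) (Prod.mk u ⁻¹' {p : (Fin d → ℝ) × (Fin d → ℝ) | p.1 = p.2}) = 0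
    rw [this, hpt]
  have hm : Measurable (fun U : Pt d q → Fin d → ℝ => (U x, U y)) := by fun_prop
  have h3 : (Measure.infinitePi fun _ : Pt d q => unif d)
      ((fun U => (U x, U y)) ⁻¹' {p : (Fin d → ℝ) × (Fin d → ℝ) | p.1 = p.2}) = 0 := by
    rw [← Measure.map_apply hm hdm, h1, h2]
  rw [ae_iff]
  simpa using h3

theorem goo (hU : T_UNI) (hC : T_CLO) : T_GOO := by
  intro d q V hd
  have hp : IsProbabilityMeasure (unif d) := (hU d).1
  have hpt : ∀ u, unif d {u} = 0 := (hU d).2.1 hd
  have hperf : MeasurableSet {ω : XX d q | IsPerf V ω} := (hC d q V).2.2.2.2.1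
  refine ⟨meas V hperf, ?_⟩
  intro μ hμ hP
  have := hμ
  have hprob : IsProbabilityMeasure (bigLaw μ) := by
    unfold bigLaw
    infer_instance
  refine ⟨hprob, ?_⟩
  have a1 : ∀ᵐ ω ∂(bigLaw μ), IsPerf V ω.1 := by
    unfold bigLaw
    exact Measure.quasiMeasurePreserving_fst.ae hP
  have a2 : ∀ᵐ ω ∂(bigLaw μ), ∀ l, 0 ≤ ω.2.2 l ∧ ω.2.2 l < 1 := by
    unfold bigLaw
    exact Measure.quasiMeasurePreserving_snd.ae
      (Measure.quasiMeasurePreserving_snd.ae (unif_cube (d := d)))
  have a3 : ∀ᵐ U ∂(Measure.infinitePi fun _ : Pt d q => unif d), ∀ x l, 0 ≤ U x l ∧ U x l < 1 := by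
    rw [ae_all_iff]
    intro x
    exact (measurePreserving_eval_infinitePi (fun _ : Pt d q => unif d) x).quasiMeasurePreserving.ae
      (unif_cube (d := d))
  have a4 : ∀ᵐ U ∂(Measure.infinitePi fun _ : Pt d q => unif d), ∀ x y, U x = U y → x = y := by
    rw [ae_all_iff]
    intro x
    rw [ae_all_iff]
    intro y
    by_cases h : x = y
    · exact Filter.Eventually.of_forall fun _ _ => h
    · filter_upwards [pair hpt x y h] with U hU' e
      exact absurd e hU'
  have a5 : ∀ᵐ ω ∂(bigLaw μ), (∀ x y, ω.2.1 x = ω.2.1 y → x = y) ∧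
      ∀ x l, 0 ≤ ω.2.1 x l ∧ ω.2.1 x l < 1 := by
    unfold bigLaw
    exact Measure.quasiMeasurePreserving_snd.ae
      (Measure.quasiMeasurePreserving_fst.ae (a4.and a3))
  filter_upwards [a1, a2, a5] with ω h1 h2 h3
  exact ⟨h3.1, h3.2, h2, h1⟩

end Pool.Agent.H75.MC.GOO
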