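import Pool.Agent.H96.MC.Targets
import Pool.Agent.H96.MC.Basic

/-!
# Module LIFT: lifting a decomposition through a coupling of cells
-/

namespace Pool.Agent.H75.MC

open Pool.Agent.H96.MC

/-- Splitting of multisets. -/
theorem msplit {ι X : Type} (g : ι → X) (A B : Multiset X) : ∀ s : Multiset ι, s.map g = A + B →
    ∃ s1 s2, s = s1 + s2 ∧ s1.map g = A ∧ s2.map g = B := by
  classical
  induction A using Multiset.induction_on with
  | empty =>
    intro s h
    exact ⟨0, s, by simp, by simp, by simpa using h⟩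
  | cons c A ih =>
    intro s h
    have hc : c ∈ s.map g := by
      rw [h]
      simp
    obtain ⟨t, ht, rfl⟩ := Multiset.mem_map.1 hc
    have hs : s = t ::ₘ s.erase t := (Multiset.cons_erase ht).symm
    rw [hs, Multiset.map_cons, Multiset.cons_add, Multiset.cons_inj_right] at h
    obtain ⟨s1, s2, h1, h2, h3⟩ := ih _ h
    refine ⟨t ::ₘ s1, s2, ?_, by rw [Multiset.map_cons, h2], h3⟩
    rw [hs, h1, Multiset.cons_add]

theorem tm_inj {X : Type} {f g : X →₀ ℕ} (h : Finsupp.toMultiset f = Finsupp.toMultiset g) : f = g := by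
  classical
  rw [← Finsupp.toMultiset_toFinsupp f, h, Finsupp.toMultiset_toFinsupp]

/-- Splitting of finitely supported functions. -/
theorem fsplit {ι X : Type} (g : ι → X) (U : ι →₀ ℕ) (a b : X →₀ ℕ) (h : U.mapDomain g = a + b) :
    ∃ U1 U2 : ι →₀ ℕ, U = U1 + U2 ∧ U1.mapDomain g = a ∧ U2.mapDomain g = b := by
  classical
  obtain ⟨s1, s2, h1, h2, h3⟩ := msplit g (Finsupp.toMultiset a) (Finsupp.toMultiset b)
    (Finsupp.toMultiset U) (by rw [Finsupp.toMultiset_map, h, map_add])
  refine ⟨Multiset.toFinsupp s1, Multiset.toFinsupp s2, ?_, ?_, ?_⟩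
  · rw [← map_add, ← h1, Finsupp.toMultiset_toFinsupp]
  · apply tm_inj
    rw [← Finsupp.toMultiset_map, Multiset.toFinsupp_toMultiset, h2]
  · apply tm_inj
    rw [← Finsupp.toMultiset_map, Multiset.toFinsupp_toMultiset, h3]

theorem fmap_eq_zero {ι X : Type} (g : ι → X) (U : ι →₀ ℕ) (h : U.mapDomain g = 0) : U = 0 := by
  classical
  have h1 := Finsupp.toMultiset_map U g
  rw [h, map_zero, Multiset.map_eq_zero] at h1
  apply tm_inj
  rw [h1, map_zero]

theorem fmap_mem {ι X : Type} (g : ι → X) (U : ι →₀ ℕ) (t : ι) (ht : t ∈ U.support) :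
    g t ∈ (U.mapDomain g).support := by
  classical
  rw [← Finsupp.mem_toMultiset] at ht ⊢
  rw [← Finsupp.toMultiset_map]
  exact Multiset.mem_map_of_mem g ht

theorem fmap_supp {ι X : Type} (g : ι → X) (U : ι →₀ ℕ) (x : X) (hx : x ∈ (U.mapDomain g).support) :
    ∃ s ∈ U.support, g s = x := by
  rw [← Finsupp.mem_toMultiset, ← Finsupp.toMultiset_map] at hx
  obtain ⟨s, hs, h⟩ := Multiset.mem_map.1 hx
  exact ⟨s, (Finsupp.mem_toMultiset U s).1 hs, h⟩

/-- The image of a family. -/
theorem fam_map {ι X Y : Type} (f : ι → X) (g : ι → Y) (U : ι →₀ ℕ) (P : X → X → Prop) (Q : Y → Y → Prop)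
    (h : ∀ s ∈ U.support, ∀ t ∈ U.support, P (f s) (f t) → Q (g s) (g t))
    (π : X →₀ ℕ) (hπ : U.mapDomain f = π) (hd : ∀ x ∈ π.support, ∀ y ∈ π.support, P x y) :
    ∀ x ∈ (U.mapDomain g).support, ∀ y ∈ (U.mapDomain g).support, Q x y := by
  subst hπ
  intro x hx y hy
  obtain ⟨s, hs, rfl⟩ := fmap_supp g U x hx
  obtain ⟨t, ht, rfl⟩ := fmap_supp g U y hy
  exact h s hs t ht (hd _ (fmap_mem f U s hs) _ (fmap_mem f U t ht))

theorem tot_map {d q : ℕ} {ι : Type} (γ : ι → Cell d) (κ : ι → Fin q) (U : ι →₀ ℕ) :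
    tot (U.mapDomain (fun t => (γ t, κ t))) = fun i => U.sum (fun t k => if κ t = i then k else 0) := by
  classical
  induction U using Finsupp.induction_linear with
  | zero =>
    rw [Finsupp.mapDomain_zero, tot_zero]
    funext i
    simp
  | add f g hf hg =>
    rw [Finsupp.mapDomain_add, tot_add, hf, hg]
    funext i
    simp only [Pi.add_apply]
    rw [Finsupp.sum_add_index']
    · intro a
      simp
    · intro a b c
      split_ifs <;> simp
  | single a b =>
    rw [Finsupp.mapDomain_single, tot_single]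
    funext i
    rw [Finsupp.sum_single_index (by simp)]
    simp only [Pi.single_apply]
    by_cases h : κ a = i
    · simp [h]
    · rw [if_neg h, if_neg (fun h' => h h'.symm)]

theorem lift : T_LIFT := by
  classical
  intro d q V r r' ι α β κ U hU hT
  obtain ⟨μ, hμ, hs⟩ := Tl_exists hT
  clear hT
  induction μ using Multiset.induction_on generalizing U with
  | empty =>
    rw [Multiset.sum_zero] at hs
    have : U = 0 := fmap_eq_zero _ U hs.symm
    rw [this, Finsupp.mapDomain_zero]
    exact (Tl V r').zero_mem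
  | cons π μ ih =>
    rw [Multiset.sum_cons] at hs
    obtain ⟨U1, U2, hU12, h1, h2⟩ := fsplit _ U _ _ hs.symm
    have hs1 : ∀ s ∈ U1.support, s ∈ U.support := by
      intro s hs'
      rw [Finsupp.mem_support_iff] at hs' ⊢
      rw [hU12, Finsupp.add_apply]
      omega
    have hs2 : ∀ s ∈ U2.support, s ∈ U.support := by
      intro s hs'
      rw [Finsupp.mem_support_iff] at hs' ⊢
      rw [hU12, Finsupp.add_apply]
      omega
    have hI := ih U2 (fun s hs' t ht' h => hU s (hs2 s hs') t (hs2 t ht') h)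
      (fun v hv => hμ v (Multiset.mem_cons_of_mem hv)) h2.symm
    obtain ⟨hπ0, hπV, hπd⟩ := hμ π (Multiset.mem_cons_self _ _)
    rw [hU12, Finsupp.mapDomain_add]
    refine (Tl V r').add_mem (AddSubmonoid.subset_closure ⟨?_, ?_, ?_⟩) hI
    · intro h0
      have : U1 = 0 := fmap_eq_zero _ U1 h0
      rw [this, Finsupp.mapDomain_zero] at h1
      exact hπ0 h1.symm
    · rw [tot_map, ← tot_map β, h1]
      exact hπV
    · exact fam_map (fun t => (β t, κ t)) (fun t => (α t, κ t)) U1 (fun x y => nrm (x.1 - y.1) ≤ r)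
        (fun x y => nrm (x.1 - y.1) ≤ r') (fun s hs' t ht' => hU s (hs1 s hs') t (hs1 t ht')) π h1 hπd

end Pool.Agent.H75.MC
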