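import Pool.Agent.H96.MC.Targets

/-!
# Module PLM: the series `PL` is the mass of a product of Poisson laws
-/

namespace Pool.Agent.H75.MC

open Pool.Agent.H96.MC MeasureTheory ProbabilityTheory

theorem plm : T_PLM := by
  intro κ _ lam L Z hlam hL
  classical
  set r : κ → NNReal := fun k => (lam k * L).toNNReal with hrd
  have hr : ∀ k, (r k : ℝ) = lam k * L := fun k =>
    Real.coe_toNNReal _ (mul_nonneg (hlam k).le hL)
  set p : (κ → ℕ) → ℝ := fun w =>
    ∏ k, (Real.exp (-(lam k * L)) * (lam k * L) ^ (w k) / (Nat.factorial (w k) : ℝ)) with hp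
  have hp0 : ∀ w, 0 ≤ p w := by
    intro w
    apply Finset.prod_nonneg
    intro k _
    have := mul_nonneg (hlam k).le hL
    positivity
  set μ : Measure (κ → ℕ) := Measure.pi (fun k => poissonMeasure (r k)) with hμ
  have hw : ∀ w : κ → ℕ, μ {w} = ENNReal.ofReal (p w) := by
    intro w
    rw [hμ, Measure.pi_singleton, hp]
    simp only
    rw [ENNReal.ofReal_prod_of_nonneg]
    · refine Finset.prod_congr rfl (fun k _ => ?_)
      rw [poissonMeasure_singleton, hr]
    · intro k _
      have := mul_nonneg (hlam k).le hL
      positivity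
  have hms : ∀ s : Set (κ → ℕ), μ s = ∑' w, s.indicator (fun w => ENNReal.ofReal (p w)) w := by
    intro s
    have h1 := Measure.tsum_indicator_apply_singleton μ s (Set.to_countable s).measurableSet
    rw [← h1]
    congr 1
    funext w
    congr 1
    funext w
    exact hw w
  have hsum : Summable p := by
    have h1 : ∑' w, ENNReal.ofReal (p w) ≠ ⊤ := by
      have h2 := hms Set.univ
      simp only [Set.indicator_univ] at h2
      rw [← h2]
      exact measure_ne_top μ _
    have h3 := ENNReal.summable_toReal h1
    refine h3.congr (fun w => ?_)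
    rw [ENNReal.toReal_ofReal (hp0 w)]
  have hind : ∀ w, 0 ≤ Z.indicator p w := fun w => Set.indicator_nonneg (fun w _ => hp0 w) w
  have hfin : μ Z = ENNReal.ofReal (PL lam L Z) := by
    rw [hms Z]
    unfold PL
    rw [ENNReal.ofReal_tsum_of_nonneg hind (hsum.indicator Z)]
    congr 1
    funext w
    by_cases h : w ∈ Z
    · rw [Set.indicator_of_mem h, Set.indicator_of_mem h]
    · rw [Set.indicator_of_notMem h, Set.indicator_of_notMem h, ENNReal.ofReal_zero]
  exact hfin

end Pool.Agent.H75.MC
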